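import Pool.Agent.N770.Cover
import Pool.Agent.N770.PLogs

/-!
# Linear forms in `p`-adic logarithms which are algebraically dependent, in bounded degree, with a
fixed number

Let `L` be the Iwasawa logarithm, let `λ_i = L α_i`, `i = 1, ..., n`, be logarithms of algebraic
numbers, let `v` be any transcendental number in the algebraic closure of `ℚ_p` (for example one of
the `λ_i`) and let `D` be a natural number. We consider the linear forms `u` in
`1, λ_1, ..., λ_n` with algebraic coefficients for which some nonzero polynomial `P` over `ℚ̄` of total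
degree at most `D` vanishes at `(u, v)`. We prove that they lie in finitely many subspaces `W` with
`⌊(dim W) ^ 2 / 4⌋ ≤ D`; each `W` contains `1`, and contains `v` if `v` is such a linear form. By the
theorem of Brumer, if `W` contains `r` logarithms of algebraic numbers which are linearly independent
over `ℚ` then `⌊(r + 1) ^ 2 / 4⌋ ≤ D`. For example, for `D = 3` and `v = λ_1` the exceptional
logarithms lie in finitely many planes (over `ℚ`) which contain `λ_1`.

This is the `p`-adic analogue of `MP_60829e_nt.DependentWithFixedNumber`. The proof uses the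
hyperplane case of the `p`-adic linear subgroup theorem and the geometry of curves.
-/

set_option autoImplicit false

namespace Pool.Agent.Results.MP_c50dba_nt.DependentWithFixedNumber

/-- `L` is the Iwasawa logarithm on the algebraic closure of `ℚ_p`. -/
structure IsIwasawaLog (p : ℕ) [Fact p.Prime] (L : PadicAlgCl p → PadicAlgCl p) : Prop where
  mul : ∀ x y : PadicAlgCl p, x ≠ 0 → y ≠ 0 → L (x * y) = L x + L y
  prime : L ((p : ℕ) : PadicAlgCl p) = 0
  ser : ∀ z : PadicAlgCl p, ‖z‖ < 1 →
    HasSum (fun n : ℕ => (-1 : PadicAlgCl p) ^ n * z ^ (n + 1) / ((n : PadicAlgCl p) + 1))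
      (L (1 + z))

/-- `u` and `v` satisfy a nonzero polynomial relation, with algebraic coefficients, of total degree
at most `D` -/
def Dependent {p : ℕ} [Fact p.Prime] (D : ℕ) (u v : PadicAlgCl p) : Prop :=
  ∃ P : MvPolynomial (Fin 2) (algebraicClosure ℚ (PadicAlgCl p)), P ≠ 0 ∧ P.totalDegree ≤ D ∧
    MvPolynomial.aeval ![u, v] P = 0

/-- The linear combinations of `1` and the `l i` with algebraic coefficients. -/
noncomputable def Forms {p : ℕ} [Fact p.Prime] {n : ℕ} (l : Fin n → PadicAlgCl p) :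
    Submodule (algebraicClosure ℚ (PadicAlgCl p)) (PadicAlgCl p) :=
  Submodule.span (algebraicClosure ℚ (PadicAlgCl p)) ({1} ∪ Set.range l)

/-- **Main result.** -/
theorem result (p : ℕ) [Fact p.Prime] (L : PadicAlgCl p → PadicAlgCl p) (hL : IsIwasawaLog p L)
    (n : ℕ) (α : Fin n → PadicAlgCl p) (hα : ∀ i, α i ≠ 0 ∧ IsAlgebraic ℚ (α i))
    (v : PadicAlgCl p) (hv : Transcendental ℚ v) (D : ℕ) :
    ∃ 𝒲 : Set (Submodule (algebraicClosure ℚ (PadicAlgCl p)) (PadicAlgCl p)), 𝒲.Finite ∧
      (∀ W ∈ 𝒲, W ≤ Forms (fun i => L (α i)) ∧ 1 ∈ W ∧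
        (v ∈ Forms (fun i => L (α i)) → v ∈ W) ∧
        Module.finrank (algebraicClosure ℚ (PadicAlgCl p)) W ^ 2 / 4 ≤ D ∧
        ∀ (r : ℕ) (β : Fin r → PadicAlgCl p), (∀ i, β i ≠ 0 ∧ IsAlgebraic ℚ (β i)) →
          (∀ i, L (β i) ∈ W) → LinearIndependent ℚ (fun i => L (β i)) → (r + 1) ^ 2 / 4 ≤ D) ∧
      ∀ u ∈ Forms (fun i => L (α i)), Dependent D u v → ∃ W ∈ 𝒲, u ∈ W := by
  classical
  have hL' : Pool.Agent.W245.PB.IsIwasawaLog p L := ⟨hL.mul, hL.prime, hL.ser⟩
  have hac : IsAlgClosed (algebraicClosure ℚ (PadicAlgCl p)) :=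
    Pool.Agent.N770.isAlgClosed_QC (Cc := PadicAlgCl p)
  have halgc : Algebra.IsAlgebraic ℚ (algebraicClosure ℚ (PadicAlgCl p)) :=
    algebraicClosure.isAlgebraic ℚ (PadicAlgCl p)
  have hv' : Transcendental (algebraicClosure ℚ (PadicAlgCl p)) v := by
    intro h
    exact hv (h.restrictScalars ℚ)
  have hfd : FiniteDimensional (algebraicClosure ℚ (PadicAlgCl p)) (Forms (fun i => L (α i))) :=
    FiniteDimensional.span_of_finite _ ((Set.finite_singleton _).union (Set.finite_range _))
  have h1 : (1 : PadicAlgCl p) ∈ Forms (fun i => L (α i)) := Submodule.subset_span (Or.inl rfl)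
  have hle : Forms (fun i => L (α i)) ≤ Pool.Agent.W254.PA.LtE (Pool.Agent.W254.PA.logs L) := by
    rw [Forms, Submodule.span_le]
    rintro x (hx | ⟨i, rfl⟩)
    · rw [Set.mem_singleton_iff] at hx
      rw [hx]
      exact Pool.Agent.N770.one_mem_padic
    · exact Submodule.subset_span (Or.inr ⟨α i, (hα i).1, (hα i).2, rfl⟩)
  obtain ⟨𝒲, h𝒲f, h𝒲, hcov⟩ := Pool.Agent.N770.cover
    (K := algebraicClosure ℚ (PadicAlgCl p)) _ (Pool.Agent.N770.grows_padic hL') v hv' D _
    (Forms (fun i => L (α i))) hfd hle h1 rfl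
  refine ⟨𝒲, h𝒲f, ?_, hcov⟩
  intro W hW
  obtain ⟨h2, h3, h4, h5⟩ := h𝒲 W hW
  refine ⟨h2, h3, h4, h5, ?_⟩
  intro r β hβ hyW hyli
  have hWfd : FiniteDimensional (algebraicClosure ℚ (PadicAlgCl p)) W :=
    Submodule.finiteDimensional_of_le h2
  refine le_trans ?_ h5
  apply Nat.div_le_div_right
  apply Nat.pow_le_pow_left
  have hcons : LinearIndependent (algebraicClosure ℚ (PadicAlgCl p))
      (Fin.cons 1 (fun i => L (β i)) : Fin (r + 1) → PadicAlgCl p) := by
    rw [Fintype.linearIndependent_iff]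
    intro g hg
    rw [Fin.sum_univ_succ] at hg
    simp only [Fin.cons_zero, Fin.cons_succ] at hg
    have h6 : (g 0 : PadicAlgCl p) + ∑ i : Fin r, (g i.succ : PadicAlgCl p) * L (β i) = 0 := by
      rw [← hg, Algebra.smul_def, mul_one]
      congr 1
    obtain ⟨h7, h8⟩ := Pool.Agent.W245.PB.brumer hL' β (fun i => (hβ i).1) (fun i => (hβ i).2) hyli
      (g 0) (mem_algebraicClosure_iff.1 (g 0).2) (fun i => (g i.succ : PadicAlgCl p))
      (fun i => mem_algebraicClosure_iff.1 (g i.succ).2) h6
    intro i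
    refine Fin.cases ?_ (fun i => ?_) i
    · exact_mod_cast h7
    · exact_mod_cast h8 i
  have hmem : ∀ i, (Fin.cons 1 (fun i => L (β i)) : Fin (r + 1) → PadicAlgCl p) i ∈ W := by
    intro i
    refine Fin.cases ?_ (fun i => ?_) i
    · exact h3
    · rw [Fin.cons_succ]
      exact hyW i
  have h6 : LinearIndependent (algebraicClosure ℚ (PadicAlgCl p)) (fun i => (⟨_, hmem i⟩ : W)) :=
    LinearIndependent.of_comp W.subtype hcons
  have h7 := h6.fintype_card_le_finrank
  rwa [Fintype.card_fin] at h7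

end Pool.Agent.Results.MP_c50dba_nt.DependentWithFixedNumber
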