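import Pool.Agent.Y787.PFin

/-!
# `p`-adic logarithms in a field of transcendence degree one have large degrees

Let `C` be the algebraic closure of `ℚ_p`, and let `F ⊆ C` be a field containing the field `ℚ̄` of the
algebraic numbers. Let `x_1, ..., x_N ∈ F` be linear forms in `1` and `p`-adic logarithms of algebraic
numbers such that `1, x_1, ..., x_N` are linearly independent over `ℚ̄` (for example, by the theorem of
Brumer, `p`-adic logarithms of algebraic numbers which are linearly independent over `ℚ`). If `F` is a
finite extension of `ℚ̄(x_i)` for all `i`, then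

`∑ [F : ℚ̄(x_i)] ≥ ⌊(N + 1) ^ 2 / 4⌋`.

Hence in a field of transcendence degree one over `ℚ̄` there are at most `4 D - 2` linearly independent
`p`-adic logarithms (modulo constants) of degree at most `D`. It is not known whether two `p`-adic
logarithms of algebraic numbers are algebraically independent whenever they are linearly independent over
`ℚ`; the conjecture predicts `N = 1`.

The complex analogue is the starting result `MP_60829e_nt.FieldDegrees`. The proof
(`Pool.Agent.Y787.GL.Curve6`): by the hyperplane case of the linear subgroup theorem over the `p`-adic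
numbers the curve with generic point `(x_1, ..., x_N)` has degree at least `⌊(N + 1) ^ 2 / 4⌋`, a generic
linear combination of the `x_i` bounds all of them, and degrees of functions are subadditive.
-/

set_option autoImplicit false

namespace Pool.Agent.Results.MP_c50dba_nt.FieldDegrees

/-- `L` is the Iwasawa logarithm on the algebraic closure of `ℚ_p`. -/
structure IsIwasawaLog (p : ℕ) [Fact p.Prime] (L : PadicAlgCl p → PadicAlgCl p) : Prop where
  mul : ∀ x y : PadicAlgCl p, x ≠ 0 → y ≠ 0 → L (x * y) = L x + L y
  prime : L ((p : ℕ) : PadicAlgCl p) = 0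
  ser : ∀ z : PadicAlgCl p, ‖z‖ < 1 →
    HasSum (fun n : ℕ => (-1 : PadicAlgCl p) ^ n * z ^ (n + 1) / ((n : PadicAlgCl p) + 1))
      (L (1 + z))

/-- The space of all linear combinations with algebraic coefficients of `1` and of the values of `L`
at algebraic numbers. -/
noncomputable def LogForms {p : ℕ} [Fact p.Prime] (L : PadicAlgCl p → PadicAlgCl p) :
    Submodule (algebraicClosure ℚ (PadicAlgCl p)) (PadicAlgCl p) :=
  Submodule.span (algebraicClosure ℚ (PadicAlgCl p))
    ({1} ∪ {z | ∃ α : PadicAlgCl p, α ≠ 0 ∧ IsAlgebraic ℚ α ∧ z = L α})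

/-- **Main result.** -/
theorem result (p : ℕ) [Fact p.Prime] (L : PadicAlgCl p → PadicAlgCl p) (hL : IsIwasawaLog p L)
    (F : IntermediateField (algebraicClosure ℚ (PadicAlgCl p)) (PadicAlgCl p)) (N : ℕ)
    (x : Fin N → F) (hx : ∀ i, (x i : PadicAlgCl p) ∈ LogForms L)
    (hli : LinearIndependent (algebraicClosure ℚ (PadicAlgCl p)) (Fin.cons 1 x : Fin (N + 1) → F))
    (hfin : ∀ i, FiniteDimensional
      (IntermediateField.adjoin (algebraicClosure ℚ (PadicAlgCl p)) {x i}) F) :
    (N + 1) ^ 2 / 4 ≤ ∑ i,
      Module.finrank (IntermediateField.adjoin (algebraicClosure ℚ (PadicAlgCl p)) {x i}) F :=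
  have hL' : Pool.Agent.W245.PB.IsIwasawaLog p L := ⟨hL.mul, hL.prime, hL.ser⟩
  Pool.Agent.Y787.degreesP hL' F N x hx hli hfin

end Pool.Agent.Results.MP_c50dba_nt.FieldDegrees
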