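import Pool.Agent.N778.VarT

/-!
# Points with `p`-adic logarithmic coordinates on arbitrary varieties lie on translates of rational spaces, up to a set of bounded dimension

If `p`-adic logarithms of algebraic numbers which are linearly independent over `ℚ` are algebraically
independent, then a variety `V` in affine `m`-space defined over the field `ℚ̄` of algebraic numbers
contains a point `y` whose coordinates are linear forms in `1` and `p`-adic logarithms of algebraic
numbers only if it contains a translate `y + R_C`, where `R` is a linear space defined over `ℚ̄` and `C`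
is the algebraic closure of `ℚ_p`. We prove for ARBITRARY varieties over `C` that the points `y` which
are not on such translates are rare, unconditionally.

Let `K = ℚ` or `K = ℚ̄`, let `V_t`, `t` in `K ^ τ`, be a family of algebraic sets in `C ^ m` (zeros of
polynomials `F_s (Y, t)` with arbitrary coefficients in `C`; `τ = 0` is the case of one algebraic set),
and let `ρ ≤ m`. Call a point `y` exceptional if it is on some `V_t` such that `V_t` contains no translate
`y + R_C` with a linear space `R ⊆ K ^ m` of dimension greater than `ρ`.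

* Dimension. Let `W` be a `K`-space of dimension `N` of linear forms in `1` and `p`-adic logarithms of
  algebraic numbers with coefficients in `K`. The exceptional points of `W ^ m` lie in an algebraic
  subset, defined over `K`, of dimension at most `ρ N + (m - ρ) (m - 1) + τ`. (A set lies in an algebraic
  subset of dimension at most `d` if and only if any `d + 1` linear forms satisfy a nontrivial polynomial
  relation on it.)
* Counting. Let `l_1, ..., l_N` be `K`-linearly independent linear forms of this kind, for instance
  linearly independent `p`-adic logarithms of algebraic numbers. At most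
  `κ H ^ (ρ N + (m - ρ) (m - 1) + τ)` of the integer `m × N` matrices `A` with entries of absolute value
  at most `H` are such that `A l` is an exceptional point.
* Lower bound. If the algebraic set `V` contains a translate `A₀ l + R_C`, where `A₀` is an integer
  matrix and `R` is a rational space, then at least `κ⁻¹ H ^ (N dim R)` of these matrices `A` are such
  that `A l` is in `V`.

For `ρ = 0` this says: outside of the union of the translates of linear spaces defined over `K` of
positive dimension which are contained in `V` there is only a set of points of dimension at most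
`m (m - 1)`, and only `κ H ^ (m (m - 1))` points `A l`. This bound does not depend on `N` nor on the
degree of `V`. All counterexamples to the question which come from `V` are among these points.

The complex analogue is `MP_60829e_nt.TranslatesInVarieties`. Known before (starting files): the case of
the varieties of matrices of rank at most `r` (`MP_1f047c_nt.RankStrata`), where the method of the proof
comes from, and the theorem of `BoundedDegreeStrata`.

The proof (`Pool.Agent.Y787.AS`): if the theorem fails, there are a generic point `y` of a family over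
an ultrapower and many derivations of the ultrapower of `C` which vanish on the `l_j`. The hyperplane
case of the linear subgroup theorem of Waldschmidt and Roy over the `p`-adic numbers is applied to all
derivatives of the equations at `y`, of all orders: the space of the directions `R` is cut down until no
derivative gives a new condition, and then `y + R_C` is contained in the variety.
-/

set_option autoImplicit false

open MvPolynomial

namespace Pool.Agent.Results.MP_c50dba_nt.TranslatesInVarieties

variable {p : ℕ} [Fact p.Prime]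

/-- `L` is the Iwasawa logarithm on the algebraic closure of `ℚ_p`. -/
structure IsIwasawaLog (p : ℕ) [Fact p.Prime] (L : PadicAlgCl p → PadicAlgCl p) : Prop where
  mul : ∀ x y : PadicAlgCl p, x ≠ 0 → y ≠ 0 → L (x * y) = L x + L y
  prime : L ((p : ℕ) : PadicAlgCl p) = 0
  ser : ∀ z : PadicAlgCl p, ‖z‖ < 1 →
    HasSum (fun n : ℕ => (-1 : PadicAlgCl p) ^ n * z ^ (n + 1) / ((n : PadicAlgCl p) + 1))
      (L (1 + z))

/-- The linear forms, with coefficients in `K`, in `1` and in the values of `L` at algebraic numbers. -/
noncomputable def LogForms (L : PadicAlgCl p → PadicAlgCl p) (K : Type) [Field K]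
    [Algebra K (PadicAlgCl p)] : Submodule K (PadicAlgCl p) :=
  Submodule.span K ({1} ∪ {z : PadicAlgCl p | ∃ α : PadicAlgCl p, α ≠ 0 ∧ IsAlgebraic ℚ α ∧ z = L α})

/-- The translate `y + R_C` is contained in the member with parameter `t` of the family given by the
equations `F`. -/
def TranslateIn (K : Type) [Field K] [Algebra K (PadicAlgCl p)] {m τ r : ℕ}
    (F : Fin r → MvPolynomial (Fin m ⊕ Fin τ) (PadicAlgCl p)) (y : Fin m → PadicAlgCl p)
    (t : Fin τ → K) (R : Submodule K (Fin m → K)) : Prop :=
  ∀ s, ∀ c ∈ Submodule.span (PadicAlgCl p)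
      {x : Fin m → PadicAlgCl p | ∃ v ∈ R, x = fun i => algebraMap K (PadicAlgCl p) (v i)},
    eval (Sum.elim (fun i => y i + c i) (fun a => algebraMap K (PadicAlgCl p) (t a))) (F s) = 0

/-- For some parameter `t` over `K` the point `y` is on the member with parameter `t` of the family, and
this member contains no translate `y + R_C` with `dim R > ρ`. -/
def Exceptional (K : Type) [Field K] [Algebra K (PadicAlgCl p)] {m τ r : ℕ}
    (F : Fin r → MvPolynomial (Fin m ⊕ Fin τ) (PadicAlgCl p)) (ρ : ℕ)
    (y : Fin m → PadicAlgCl p) : Prop :=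
  ∃ t : Fin τ → K,
    (∀ s, eval (Sum.elim y (fun a => algebraMap K (PadicAlgCl p) (t a))) (F s) = 0) ∧
    ∀ R : Submodule K (Fin m → K), TranslateIn K F y t R → Module.finrank K R ≤ ρ

/-- The bounds for the dimension and for the number of the exceptional points. -/
def UpperBounds (L : PadicAlgCl p → PadicAlgCl p) (K : Type) [Field K]
    [Algebra K (PadicAlgCl p)] : Prop :=
  ∀ (m τ r ρ : ℕ), ρ ≤ m → ∀ F : Fin r → MvPolynomial (Fin m ⊕ Fin τ) (PadicAlgCl p),
    (∀ (W : Submodule K (PadicAlgCl p)) [FiniteDimensional K W], W ≤ LogForms L K →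
      ∀ φ : Fin (ρ * Module.finrank K W + (m - ρ) * (m - 1) + τ + 1) → ((Fin m → W) →ₗ[K] K),
      ∃ P : MvPolynomial (Fin (ρ * Module.finrank K W + (m - ρ) * (m - 1) + τ + 1)) K, P ≠ 0 ∧
        ∀ y : Fin m → W, Exceptional K F ρ (fun i => (y i : PadicAlgCl p)) →
          eval (fun i => φ i y) P = 0) ∧
    ∀ (N : ℕ) (l : Fin N → PadicAlgCl p), (∀ j, l j ∈ LogForms L K) → LinearIndependent K l →
      ∃ κ : ℕ, ∀ H : ℕ, 1 ≤ H →
        Set.ncard {A : Fin m → Fin N → ℤ | (∀ i j, |A i j| ≤ H) ∧
          Exceptional K F ρ (fun i => ∑ j, (A i j : PadicAlgCl p) * l j)} ≤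
        κ * H ^ (ρ * N + (m - ρ) * (m - 1) + τ)

theorem exc_of {K : Type} [Field K] [Algebra K (PadicAlgCl p)] {m τ r : ℕ}
    {F : Fin r → MvPolynomial (Fin m ⊕ Fin τ) (PadicAlgCl p)} {ρ : ℕ} {y : Fin m → PadicAlgCl p}
    (h : Exceptional K F ρ y) : N778.VarT.Exc K F ρ y := by
  obtain ⟨t, h1, h2⟩ := h
  refine ⟨t, h1, ?_⟩
  rintro ⟨R, h3, h4⟩
  exact absurd (h2 R h4) (by omega)

theorem upper_of {L : PadicAlgCl p → PadicAlgCl p} {K : Type} [Field K] [CharZero K] [Countable K]
    [Algebra K (PadicAlgCl p)] (hL : Pool.Agent.W254.PA.Hyp (LogForms L K)) :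
    UpperBounds L K := by
  intro m τ r ρ hρ F
  refine ⟨fun W _ hW φ => ?_, fun N l hl hli => ?_⟩
  · obtain ⟨P, h1, h2⟩ := N778.VarT.exc_dim hL Pool.Agent.Y787.AS.wts_pt W hW hρ F φ
    exact ⟨P, h1, fun y hy => h2 y (exc_of hy)⟩
  · obtain ⟨κ, hκ⟩ := N778.VarT.exc_count hL Pool.Agent.Y787.AS.wts_pt hρ l hl hli F
    refine ⟨κ, fun H hH => le_trans (Set.ncard_le_ncard ?_ ?_) (hκ H hH)⟩
    · rintro A ⟨h1, h2⟩
      exact ⟨h1, exc_of h2⟩
    · exact Pool.Agent.Y787.AS.box_finite' H _

/-- **Main result.** -/
theorem result (p : ℕ) [Fact p.Prime] (L : PadicAlgCl p → PadicAlgCl p) (hL : IsIwasawaLog p L) :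
    UpperBounds L ℚ ∧ UpperBounds L (algebraicClosure ℚ (PadicAlgCl p)) ∧
    ∀ (m τ r N : ℕ) (F : Fin r → MvPolynomial (Fin m ⊕ Fin τ) (PadicAlgCl p))
      (l : Fin N → PadicAlgCl p) (A₀ : Fin m → Fin N → ℤ) (t : Fin τ → ℚ)
      (R : Submodule ℚ (Fin m → ℚ)),
      TranslateIn ℚ F (fun i => ∑ j, (A₀ i j : PadicAlgCl p) * l j) t R →
      ∃ κ : ℕ, 1 ≤ κ ∧ ∀ H : ℕ, κ ≤ H → H ^ (Module.finrank ℚ R * N) ≤ κ *
        Set.ncard {A : Fin m → Fin N → ℤ | (∀ i j, |A i j| ≤ H) ∧
          ∀ s, eval (Sum.elim (fun i => ∑ j, (A i j : PadicAlgCl p) * l j)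
            (fun a => algebraMap ℚ (PadicAlgCl p) (t a))) (F s) = 0} := by
  have hL' : Pool.Agent.W245.PB.IsIwasawaLog p L := ⟨hL.mul, hL.prime, hL.ser⟩
  refine ⟨upper_of (Pool.Agent.Y787.AS.hypQ_padic hL'), ?_, ?_⟩
  · have := N778.VarT.countable_QC (E := PadicAlgCl p)
    exact upper_of (Pool.Agent.Y787.hypC_padic hL').hyp
  · intro m τ r N F l A₀ t R hR
    exact N778.VarT.lower l F A₀ (fun a => algebraMap ℚ (PadicAlgCl p) (t a)) R hR

end Pool.Agent.Results.MP_c50dba_nt.TranslatesInVarieties
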